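import Mathlib

/-!
# A cubic graph with fault cost 1
-/

set_option autoImplicit false

namespace Pool.Agent.Results.MP_54aac5_co.CubicFaultCostOne

section defs

variable {V : Type}

/-- `H` is a Hamiltonian cycle of the induced subgraph `G[X]` (as a graph on `V` whose edges are
the edges of the cycle). -/
def IsHamCycleOn (G : SimpleGraph V) (X : Set V) (H : SimpleGraph V) : Prop :=
  ∃ (m : ℕ) (c : ZMod m → V), 3 ≤ m ∧ Function.Injective c ∧ Set.range c = X ∧
    (∀ i, G.Adj (c i) (c (i + 1))) ∧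
    ∀ x y, H.Adj x y ↔ ∃ i, (x = c i ∧ y = c (i + 1)) ∨ (y = c i ∧ x = c (i + 1))

/-- `T` is a spanning tree of the induced subgraph `G[X]` (as a graph on `V` whose edges are the
edges of the tree). -/
def IsSpanningTreeOn (G : SimpleGraph V) (X : Set V) (T : SimpleGraph V) : Prop :=
  T ≤ G ∧ (∀ x y, T.Adj x y → x ∈ X ∧ y ∈ X) ∧ (T.induce X).IsTree

/-- the degree of `w` in `S` -/
noncomputable def deg (S : SimpleGraph V) (w : V) : ℕ := (S.neighborSet w).ncard

/-- the number of vertices of degree one -/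
noncomputable def leafCount (S : SimpleGraph V) : ℕ := {w | deg S w = 1}.ncard

open Classical in
/-- the minimum leaf number of `G[X]` -/
noncomputable def ml (G : SimpleGraph V) (X : Set V) : ℕ :=
  if ∃ H, IsHamCycleOn G X H then 1 else sInf {k | ∃ T, IsSpanningTreeOn G X T ∧ leafCount T = k}

/-- `S` is an ml-subgraph of `G[X]`. -/
def IsML (G : SimpleGraph V) (X : Set V) (S : SimpleGraph V) : Prop :=
  ((∃ H, IsHamCycleOn G X H) ∧ IsHamCycleOn G X S) ∨
  ((¬ ∃ H, IsHamCycleOn G X H) ∧ IsSpanningTreeOn G X S ∧ leafCount S = ml G X)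

/-- the transition cost from `S` to `S'` after deletion of `v` -/
noncomputable def tau (v : V) (S S' : SimpleGraph V) : ℕ := {w | w ≠ v ∧ deg S w ≠ deg S' w}.ncard

/-- `φ_S(G)` -/
noncomputable def phiS (G S : SimpleGraph V) : ℕ :=
  ⨆ v : V, sInf {k | ∃ S', IsML G {v}ᶜ S' ∧ tau v S S' = k}

/-- the fault cost `φ(G)` -/
noncomputable def phi (G : SimpleGraph V) : ℕ :=
  sInf {k | ∃ S, IsML G Set.univ S ∧ phiS G S = k}

end defs

/-! ### Paths as spanning trees -/

lemma pathGraph_isTree (n : ℕ) : (SimpleGraph.pathGraph (n + 1)).IsTree := by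
  refine ⟨SimpleGraph.pathGraph_connected n, ?_⟩
  rw [SimpleGraph.isAcyclic_iff_forall_adj_isBridge]
  have key : ∀ i j : Fin (n + 1), i.val + 1 = j.val →
      (SimpleGraph.pathGraph (n + 1)).IsBridge s(i, j) := by
    intro i j hij
    rw [SimpleGraph.isBridge_iff]
    rintro ⟨p⟩
    have : ∀ (x y : Fin (n + 1)) (q : ((SimpleGraph.pathGraph (n + 1)).deleteEdges
        {s(i, j)}).Walk x y), x ≤ i → y ≤ i := by
      intro x y q
      induction q with
      | nil => exact id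
      | @cons u v w h q ih =>
        intro hu
        apply ih
        rw [SimpleGraph.deleteEdges_adj, SimpleGraph.pathGraph_adj] at h
        obtain ⟨h1, h2⟩ := h
        by_contra hcon
        apply h2
        have hu' : u.val ≤ i.val := hu
        have hv' : i.val < v.val := not_le.mp hcon
        have e1 : u = i := Fin.ext (by omega)
        have e2 : v = j := Fin.ext (by omega)
        rw [e1, e2]
        rfl
    have := this _ _ p le_rfl
    have h' : j.val ≤ i.val := this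
    omega
  intro i j hij
  rw [SimpleGraph.pathGraph_adj] at hij
  rcases hij with h | h
  · exact key i j h
  · have := key j i h
    rwa [Sym2.eq_swap] at this

section paths

variable {V : Type}

/-- the path along the list `l`, as a graph on `V` -/
def pathOn (l : List V) (hl : l.Nodup) : SimpleGraph V where
  Adj x y := ∃ i j : Fin l.length, (SimpleGraph.pathGraph l.length).Adj i j ∧
    l.get i = x ∧ l.get j = y
  symm := ⟨by
    rintro x y ⟨i, j, h, hi, hj⟩
    exact ⟨j, i, h.symm, hj, hi⟩⟩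
  loopless := ⟨by
    rintro x ⟨i, j, h, hi, hj⟩
    exact h.ne (hl.injective_get (hi.trans hj.symm))⟩

lemma pathOn_get {l : List V} (hl : l.Nodup) (i j : Fin l.length) :
    (pathOn l hl).Adj (l.get i) (l.get j) ↔ (SimpleGraph.pathGraph l.length).Adj i j := by
  constructor
  · rintro ⟨i', j', h, hi, hj⟩
    have e1 := hl.injective_get hi
    have e2 := hl.injective_get hj
    subst e1 e2
    exact h
  · intro h
    exact ⟨i, j, h, rfl, rfl⟩

lemma pathOn_tree {G : SimpleGraph V} {X : Set V} {l : List V} (hl : l.Nodup) (hne : l ≠ [])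
    (hX : ∀ x, x ∈ X ↔ x ∈ l)
    (hadj : ∀ i j : Fin l.length, i.val + 1 = j.val → G.Adj (l.get i) (l.get j)) :
    IsSpanningTreeOn G X (pathOn l hl) := by
  refine ⟨?_, ?_, ?_⟩
  · rintro x y ⟨i, j, h, rfl, rfl⟩
    rw [SimpleGraph.pathGraph_adj] at h
    rcases h with h | h
    · exact hadj i j h
    · exact (hadj j i h).symm
  · rintro x y ⟨i, j, h, rfl, rfl⟩
    exact ⟨(hX _).mpr (l.get_mem i), (hX _).mpr (l.get_mem j)⟩
  · have hbij : Function.Bijective
        (fun i : Fin l.length => (⟨l.get i, (hX _).mpr (l.get_mem i)⟩ : X)) := by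
      constructor
      · intro i j h
        exact hl.injective_get (congrArg Subtype.val h)
      · rintro ⟨x, hx⟩
        obtain ⟨i, hi⟩ := List.get_of_mem ((hX x).mp hx)
        exact ⟨i, Subtype.ext hi⟩
    let e : SimpleGraph.pathGraph l.length ≃g (pathOn l hl).induce X :=
      { toEquiv := Equiv.ofBijective _ hbij
        map_rel_iff' := by
          intro i j
          exact pathOn_get hl i j }
    rw [← e.isTree_iff]
    obtain ⟨n, hn⟩ : ∃ n, l.length = n + 1 := ⟨l.length - 1, by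
      have := List.length_pos_of_ne_nil hne
      omega⟩
    rw [hn]
    exact pathGraph_isTree n

lemma pathOn_deg {l : List V} (hl : l.Nodup) (h2 : 2 ≤ l.length) (i : Fin l.length) :
    deg (pathOn l hl) (l.get i) = if i.val = 0 ∨ i.val + 1 = l.length then 1 else 2 := by
  unfold deg
  have hN : (pathOn l hl).neighborSet (l.get i) =
      l.get '' {j | i.val + 1 = j.val ∨ j.val + 1 = i.val} := by
    ext x
    constructor
    · rintro ⟨i', j, h, hi, rfl⟩
      have e1 := hl.injective_get hi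
      subst e1
      rw [SimpleGraph.pathGraph_adj] at h
      exact ⟨j, h, rfl⟩
    · rintro ⟨j, h, rfl⟩
      exact ⟨i, j, SimpleGraph.pathGraph_adj.mpr h, rfl, rfl⟩
  rw [hN, Set.ncard_image_of_injective _ hl.injective_get]
  have hi := i.isLt
  split_ifs with h
  · rcases h with h | h
    · have : {j : Fin l.length | i.val + 1 = j.val ∨ j.val + 1 = i.val} = {⟨1, by omega⟩} := by
        ext j
        simp only [Set.mem_ofPred_eq, Set.mem_singleton_iff, Fin.ext_iff]
        omega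
      rw [this, Set.ncard_singleton]
    · have : {j : Fin l.length | i.val + 1 = j.val ∨ j.val + 1 = i.val} =
          {⟨i.val - 1, by omega⟩} := by
        ext j
        have := j.isLt
        simp only [Set.mem_ofPred_eq, Set.mem_singleton_iff, Fin.ext_iff]
        omega
      rw [this, Set.ncard_singleton]
  · have : {j : Fin l.length | i.val + 1 = j.val ∨ j.val + 1 = i.val} =
        {⟨i.val - 1, by omega⟩, ⟨i.val + 1, by omega⟩} := by
      ext j
      simp only [Set.mem_ofPred_eq, Set.mem_singleton_iff, Set.mem_insert_iff, Fin.ext_iff]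
      omega
    rw [this, Set.ncard_pair]
    intro h'
    have := congrArg Fin.val h'
    simp at this

lemma pathOn_deg_notMem {l : List V} (hl : l.Nodup) {x : V} (hx : x ∉ l) :
    deg (pathOn l hl) x = 0 := by
  unfold deg
  have : (pathOn l hl).neighborSet x = ∅ := by
    ext y
    simp only [Set.mem_empty_iff_false, iff_false]
    rintro ⟨i, j, h, hi, hj⟩
    exact hx (hi ▸ l.get_mem i)
  rw [this, Set.ncard_empty]

lemma pathOn_deg_eq {l : List V} (hl : l.Nodup) (h2 : 2 ≤ l.length) (hne : l ≠ []) {x : V}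
    (hx : x ∈ l) : (x = l.head hne ∨ x = l.getLast hne → deg (pathOn l hl) x = 1) ∧
      (x ≠ l.head hne → x ≠ l.getLast hne → deg (pathOn l hl) x = 2) := by
  obtain ⟨i, rfl⟩ := List.get_of_mem hx
  rw [pathOn_deg hl h2]
  have hi := i.isLt
  have e1 : l.head hne = l.get ⟨0, by omega⟩ := by
    rw [List.head_eq_getElem]; rfl
  have e2 : l.getLast hne = l.get ⟨l.length - 1, by omega⟩ := by
    rw [List.getLast_eq_getElem]; rfl
  rw [e1, e2]
  constructor
  · rintro (h | h)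
    · have := congrArg Fin.val (hl.injective_get h)
      rw [if_pos (Or.inl this)]
    · have := congrArg Fin.val (hl.injective_get h)
      simp only at this
      rw [if_pos (Or.inr (by omega))]
  · intro h3 h4
    rw [if_neg]
    rintro (h | h)
    · exact h3 (congrArg l.get (Fin.ext h))
    · exact h4 (congrArg l.get (Fin.ext (by simp only; omega)))

lemma leafCount_pathOn {l : List V} (hl : l.Nodup) (h2 : 2 ≤ l.length) :
    leafCount (pathOn l hl) = 2 := by
  have hne : l ≠ [] := by rintro rfl; simp at h2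
  unfold leafCount
  have : {w | deg (pathOn l hl) w = 1} = {l.head hne, l.getLast hne} := by
    ext w
    simp only [Set.mem_ofPred_eq, Set.mem_insert_iff, Set.mem_singleton_iff]
    constructor
    · intro h
      by_cases hw : w ∈ l
      · by_contra hcon
        rw [not_or] at hcon
        have := (pathOn_deg_eq hl h2 hne hw).2 hcon.1 hcon.2
        omega
      · rw [pathOn_deg_notMem hl hw] at h
        omega
    · intro h
      have hw : w ∈ l := by
        rcases h with rfl | rfl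
        · exact List.head_mem hne
        · exact List.getLast_mem hne
      exact (pathOn_deg_eq hl h2 hne hw).1 h
  rw [this, Set.ncard_pair]
  intro h
  have e1 : l.head hne = l.get ⟨0, by omega⟩ := by
    rw [List.head_eq_getElem]; rfl
  have e2 : l.getLast hne = l.get ⟨l.length - 1, by omega⟩ := by
    rw [List.getLast_eq_getElem]; rfl
  rw [e1, e2] at h
  have := congrArg Fin.val (hl.injective_get h)
  simp only at this
  omega

end paths

/-! ### Spanning trees have at least two leaves -/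

lemma two_le_leafCount {V : Type} [Finite V] {G T : SimpleGraph V} {X : Set V}
    (h : IsSpanningTreeOn G X T) (hX : 2 ≤ X.ncard) : 2 ≤ leafCount T := by
  classical
  have := Fintype.ofFinite V
  obtain ⟨-, hTX, hT⟩ := h
  have hnt : Nontrivial X := by
    rw [Set.nontrivial_coe_sort, ← Set.one_lt_ncard_iff_nontrivial]
    omega
  obtain ⟨u, v, huv, hu, hv⟩ := hT.exists_ne_and_degree_eq_one
  have hdeg : ∀ w : X, (T.induce X).degree w = deg T w.1 := by
    intro w
    unfold deg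
    rw [← SimpleGraph.card_neighborSet_eq_degree, ← Nat.card_eq_fintype_card,
      Nat.card_coe_set_eq]
    have : T.neighborSet w.1 = Subtype.val '' ((T.induce X).neighborSet w) := by
      ext x
      constructor
      · intro hx
        exact ⟨⟨x, (hTX _ _ hx).2⟩, hx, rfl⟩
      · rintro ⟨y, hy, rfl⟩
        exact hy
    rw [this, Set.ncard_image_of_injective _ Subtype.val_injective]
  unfold leafCount
  have hsub : ({u.1, v.1} : Set V) ⊆ {w | deg T w = 1} := by
    rintro w (rfl | rfl)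
    · exact (hdeg u).symm.trans hu
    · exact (hdeg v).symm.trans hv
  have h2 : ({u.1, v.1} : Set V).ncard = 2 :=
    Set.ncard_pair (fun h => huv (Subtype.ext h))
  rw [← h2]
  exact Set.ncard_le_ncard hsub (Set.toFinite _)

/-! ### The graph -/

/-- adjacency lists of the fragment on the vertices `0, …, 14` -/
def nbQ : List (List ℕ) :=
  [[1, 2, 3], [0, 4, 5], [0, 6, 7], [0, 8, 9], [1, 5], [1, 4, 10], [2, 8], [2, 11, 12], [3, 6, 10], [3, 13, 14], [5, 8, 12], [7, 12, 13], [7, 10, 11], [9, 11, 14], [9, 13]]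

/-- The example: two copies of the fragment (vertices `0, …, 14` and `15, …, 29`), joined by the
three edges `4 - 19`, `6 - 21`, `14 - 29`. -/
def adjB (x y : Fin 30) : Bool :=
  if x.val / 15 = y.val / 15 then (nbQ.getD (x.val % 15) []).contains (y.val % 15)
  else decide (x.val % 15 = y.val % 15) && [4, 6, 14].contains (x.val % 15)

def G : SimpleGraph (Fin 30) where
  Adj x y := adjB x y = true
  symm := ⟨by decide +kernel⟩
  loopless := ⟨by decide +kernel⟩

instance : DecidableRel G.Adj := fun x y => inferInstanceAs (Decidable (adjB x y = true))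

/-- a Hamiltonian path of `G` from `12` to `27` -/
def p0 : List (Fin 30) :=
  [12, 7, 11, 13, 9, 14, 29, 24, 28, 26, 22, 17, 15, 18, 23, 21, 6, 2, 0, 3, 8, 10, 5, 1, 4, 19, 16, 20, 25, 27]

/-- Hamiltonian paths of the vertex-deleted subgraphs -/
def pl : List (List (Fin 30)) :=
  [[12, 11, 7, 2, 6, 21, 17, 15, 18, 23, 25, 20, 16, 19, 4, 1, 5, 10, 8, 3, 9, 13, 14, 29, 24, 28, 26, 22, 27],
   [12, 7, 11, 13, 9, 14, 29, 24, 28, 26, 22, 17, 15, 18, 23, 21, 6, 2, 0, 3, 8, 10, 5, 4, 19, 16, 20, 25, 27],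
   [12, 7, 11, 13, 14, 9, 3, 0, 1, 4, 5, 10, 8, 6, 21, 17, 15, 16, 19, 20, 25, 23, 18, 24, 29, 28, 26, 22, 27],
   [12, 10, 8, 6, 21, 17, 15, 18, 23, 25, 20, 16, 19, 4, 5, 1, 0, 2, 7, 11, 13, 9, 14, 29, 24, 28, 26, 22, 27],
   [12, 7, 11, 13, 14, 9, 3, 8, 10, 5, 1, 0, 2, 6, 21, 17, 15, 16, 19, 20, 25, 23, 18, 24, 29, 28, 26, 22, 27],
   [12, 10, 8, 3, 0, 1, 4, 19, 16, 20, 25, 23, 18, 15, 17, 21, 6, 2, 7, 11, 13, 9, 14, 29, 24, 28, 26, 22, 27],
   [12, 10, 8, 3, 9, 14, 13, 11, 7, 2, 0, 1, 5, 4, 19, 16, 20, 25, 23, 21, 17, 15, 18, 24, 29, 28, 26, 22, 27],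
   [12, 11, 13, 9, 14, 29, 24, 28, 26, 22, 17, 15, 18, 23, 21, 6, 2, 0, 3, 8, 10, 5, 1, 4, 19, 16, 20, 25, 27],
   [12, 10, 5, 4, 1, 0, 3, 9, 14, 13, 11, 7, 2, 6, 21, 17, 15, 16, 19, 20, 25, 23, 18, 24, 29, 28, 26, 22, 27],
   [12, 7, 11, 13, 14, 29, 24, 28, 26, 22, 17, 15, 18, 23, 21, 6, 2, 0, 3, 8, 10, 5, 1, 4, 19, 16, 20, 25, 27],
   [12, 7, 11, 13, 14, 9, 3, 8, 6, 2, 0, 1, 5, 4, 19, 16, 20, 25, 23, 21, 17, 15, 18, 24, 29, 28, 26, 22, 27],
   [12, 7, 2, 0, 3, 9, 13, 14, 29, 24, 28, 26, 22, 17, 15, 18, 23, 21, 6, 8, 10, 5, 1, 4, 19, 16, 20, 25, 27],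
   [27, 22, 26, 28, 24, 29, 14, 9, 13, 11, 7, 2, 0, 3, 8, 6, 21, 17, 15, 18, 23, 25, 20, 16, 19, 4, 1, 5, 10],
   [12, 11, 7, 2, 0, 3, 9, 14, 29, 24, 28, 26, 22, 17, 15, 18, 23, 21, 6, 8, 10, 5, 1, 4, 19, 16, 20, 25, 27],
   [12, 7, 11, 13, 9, 3, 0, 2, 6, 8, 10, 5, 1, 4, 19, 16, 20, 25, 23, 21, 17, 15, 18, 24, 29, 28, 26, 22, 27],
   [12, 7, 11, 13, 9, 14, 29, 28, 24, 18, 23, 25, 20, 16, 19, 4, 1, 5, 10, 8, 3, 0, 2, 6, 21, 17, 22, 26, 27],
   [12, 7, 11, 13, 9, 14, 29, 24, 28, 26, 22, 17, 15, 18, 23, 21, 6, 2, 0, 3, 8, 10, 5, 1, 4, 19, 20, 25, 27],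
   [12, 7, 11, 13, 14, 9, 3, 8, 10, 5, 4, 1, 0, 2, 6, 21, 23, 25, 20, 19, 16, 15, 18, 24, 29, 28, 26, 22, 27],
   [12, 7, 11, 13, 9, 14, 29, 24, 28, 26, 22, 17, 15, 16, 20, 19, 4, 1, 5, 10, 8, 3, 0, 2, 6, 21, 23, 25, 27],
   [12, 7, 11, 13, 14, 9, 3, 8, 10, 5, 4, 1, 0, 2, 6, 21, 17, 15, 16, 20, 25, 23, 18, 24, 29, 28, 26, 22, 27],
   [12, 7, 11, 13, 9, 14, 29, 24, 28, 26, 22, 17, 21, 6, 2, 0, 3, 8, 10, 5, 1, 4, 19, 16, 15, 18, 23, 25, 27],
   [12, 7, 11, 13, 14, 9, 3, 0, 2, 6, 8, 10, 5, 1, 4, 19, 20, 16, 15, 17, 22, 26, 28, 29, 24, 18, 23, 25, 27],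
   [12, 7, 11, 13, 14, 9, 3, 0, 2, 6, 8, 10, 5, 1, 4, 19, 16, 20, 25, 23, 21, 17, 15, 18, 24, 29, 28, 26, 27],
   [12, 7, 11, 13, 14, 9, 3, 8, 10, 5, 4, 1, 0, 2, 6, 21, 17, 22, 26, 28, 29, 24, 18, 15, 16, 19, 20, 25, 27],
   [12, 7, 11, 13, 9, 14, 29, 28, 26, 22, 17, 15, 18, 23, 21, 6, 2, 0, 3, 8, 10, 5, 1, 4, 19, 16, 20, 25, 27],
   [12, 7, 11, 13, 9, 14, 29, 28, 24, 18, 23, 21, 6, 2, 0, 3, 8, 10, 5, 1, 4, 19, 20, 16, 15, 17, 22, 26, 27],
   [12, 10, 5, 1, 4, 19, 16, 20, 25, 23, 21, 6, 8, 3, 0, 2, 7, 11, 13, 9, 14, 29, 28, 24, 18, 15, 17, 22, 27],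
   [12, 7, 11, 13, 9, 14, 29, 24, 28, 26, 22, 17, 15, 18, 23, 21, 6, 2, 0, 3, 8, 10, 5, 1, 4, 19, 16, 20, 25],
   [12, 10, 5, 1, 4, 19, 16, 20, 25, 23, 21, 6, 8, 3, 0, 2, 7, 11, 13, 9, 14, 29, 24, 18, 15, 17, 22, 26, 27],
   [12, 7, 11, 13, 14, 9, 3, 0, 2, 6, 8, 10, 5, 1, 4, 19, 16, 20, 25, 23, 21, 17, 15, 18, 24, 28, 26, 22, 27]]

def pv (v : Fin 30) : List (Fin 30) := pl.getD v.val []

/-- consecutive entries are adjacent -/
def chk : List (Fin 30) → Bool
  | x :: y :: t => adjB x y && chk (y :: t)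
  | _ => true

lemma chk_get : ∀ l : List (Fin 30), chk l = true → ∀ i j : Fin l.length, i.val + 1 = j.val →
    G.Adj (l.get i) (l.get j)
  | [], _, i, _, _ => i.elim0
  | [x], _, i, j, h => by
      have hi := i.isLt
      have hj := j.isLt
      simp only [List.length_cons, List.length_nil] at hi hj
      omega
  | x :: y :: t, hl, ⟨0, _⟩, ⟨1, _⟩, _ => by
      simp only [chk, Bool.and_eq_true] at hl
      exact hl.1
  | x :: y :: t, hl, ⟨i + 1, hi⟩, ⟨j + 1, hj⟩, h => by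
      simp only [chk, Bool.and_eq_true] at hl
      exact chk_get (y :: t) hl.2 ⟨i, by simpa using hi⟩ ⟨j, by simpa using hj⟩ (by
        simp only at h ⊢
        omega)
  | x :: y :: t, hl, ⟨0, _⟩, ⟨0, _⟩, h => by simp at h
  | x :: y :: t, hl, ⟨0, _⟩, ⟨j + 2, _⟩, h => by simp at h
  | x :: y :: t, hl, ⟨i + 1, _⟩, ⟨0, _⟩, h => by simp at h

lemma p0_ok : p0.Nodup ∧ chk p0 = true ∧ (∀ x, x ∈ p0) ∧ p0.length = 30 := by decide +kernel

lemma pv_ok : ∀ v, (pv v).Nodup ∧ chk (pv v) = true ∧ (∀ x, x ∈ pv v ↔ x ≠ v) ∧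
    (pv v).length = 29 := by decide +kernel

/-- the only place where degrees may differ -/
def zv (v : Fin 30) : Fin 30 := if v = 12 then 10 else 25

lemma ends_ok : ∀ v w : Fin 30, w ≠ v → w ≠ zv v →
    ((p0.head? = some w ∨ p0.getLast? = some w) ↔
      ((pv v).head? = some w ∨ (pv v).getLast? = some w)) := by decide +kernel

/-! ### Non-hamiltonicity -/

/-- search for a Hamiltonian path of the fragment ending in a terminal -/
def dfs : ℕ → ℕ → List ℕ → Bool
  | 0, last, _ => [4, 6, 14].contains last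
  | f + 1, last, vis => (nbQ.getD last []).any fun v => !(vis.contains v) && dfs f v (v :: vis)

def L (g : ℕ → ℕ) : ℕ → List ℕ
  | 0 => []
  | t + 1 => g t :: L g t

lemma mem_L (g : ℕ → ℕ) (t e : ℕ) : e ∈ L g t ↔ ∃ s, s < t ∧ g s = e := by
  induction t with
  | zero => simp [L]
  | succ t ih =>
    rw [L, List.mem_cons, ih]
    constructor
    · rintro (h | ⟨s, hs, h⟩)
      · exact ⟨t, by omega, h.symm⟩
      · exact ⟨s, by omega, h⟩
    · rintro ⟨s, hs, h⟩
      by_cases hst : s = t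
      · left; rw [← hst, h]
      · right; exact ⟨s, by omega, h⟩

lemma dfs_complete (x : ℕ → ℕ) (hstep : ∀ t, t < 14 → x (t + 1) ∈ nbQ.getD (x t) [])
    (hinj : ∀ s t, s < t → t ≤ 14 → x s ≠ x t) (hend : x 14 ∈ [4, 6, 14]) :
    ∀ f t, f + t = 14 → dfs f (x t) (L x (t + 1)) = true := by
  intro f
  induction f with
  | zero =>
    intro t ht
    have : t = 14 := by omega
    subst this
    unfold dfs
    simpa using hend
  | succ f ih =>
    intro t ht
    unfold dfs
    rw [List.any_eq_true]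
    refine ⟨x (t + 1), hstep t (by omega), ?_⟩
    have h3 : x (t + 1) ∉ L x (t + 1) := by
      rw [mem_L]
      rintro ⟨s, hs, h⟩
      exact hinj s (t + 1) hs (by omega) h
    rw [Bool.and_eq_true]
    refine ⟨by simpa using h3, ih (t + 1) (by omega)⟩

lemma dfs_check : dfs 14 4 [4] = false ∧ dfs 14 6 [6] = false ∧ dfs 14 14 [14] = false := by
  decide +kernel

lemma dfs_false (a : ℕ) (h : a = 4 ∨ a = 6 ∨ a = 14) : dfs 14 a [a] = false := by
  obtain ⟨k1, k2, k3⟩ := dfs_check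
  rcases h with rfl | rfl | rfl
  · exact k1
  · exact k2
  · exact k3

lemma adj_same {x y : Fin 30} (h : G.Adj x y) (hs : x.val / 15 = y.val / 15) :
    y.val % 15 ∈ nbQ.getD (x.val % 15) [] := by
  have h' : adjB x y = true := h
  unfold adjB at h'
  rw [if_pos hs] at h'
  simpa using h'

lemma adj_cross {x y : Fin 30} (h : G.Adj x y) (hs : x.val / 15 ≠ y.val / 15) :
    x.val % 15 = y.val % 15 ∧ (x.val % 15 = 4 ∨ x.val % 15 = 6 ∨ x.val % 15 = 14) := by
  have h' : adjB x y = true := h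
  unfold adjB at h'
  rw [if_neg hs] at h'
  simpa using h'

lemma pigeon {r1 r2 r3 r4 : ℕ} (h1 : r1 = 4 ∨ r1 = 6 ∨ r1 = 14) (h2 : r2 = 4 ∨ r2 = 6 ∨ r2 = 14)
    (h3 : r3 = 4 ∨ r3 = 6 ∨ r3 = 14) (h4 : r4 = 4 ∨ r4 = 6 ∨ r4 = 14) (n12 : r1 ≠ r2)
    (n13 : r1 ≠ r3) (n14 : r1 ≠ r4) (n23 : r2 ≠ r3) (n24 : r2 ≠ r4) (n34 : r3 ≠ r4) : False := by
  omega

/-- A cyclic sequence crossing a cut with only three edges forms one arc on each side. -/
lemma arc {α : Type} (m : ℕ) (hm : 3 ≤ m) (x : ℕ → α) (P : α → Prop) (τ : α → ℕ)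
    (hinj : ∀ s t, s < m → t < m → x s = x t → s = t) (h0 : P (x 0)) (hlast : ¬ P (x (m - 1)))
    (hwrap : τ (x 0) = τ (x (m - 1)) ∧ (τ (x 0) = 4 ∨ τ (x 0) = 6 ∨ τ (x 0) = 14))
    (hexit : ∀ t, P (x t) → ¬ P (x (t + 1)) →
      τ (x t) = τ (x (t + 1)) ∧ (τ (x t) = 4 ∨ τ (x t) = 6 ∨ τ (x t) = 14))
    (hentry : ∀ t, ¬ P (x t) → P (x (t + 1)) →
      τ (x (t + 1)) = τ (x t) ∧ (τ (x (t + 1)) = 4 ∨ τ (x (t + 1)) = 6 ∨ τ (x (t + 1)) = 14))
    (hin : ∀ y z, P y → P z → τ y = τ z → y = z)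
    (hout : ∀ y z, ¬ P y → ¬ P z → τ y = τ z → y = z) :
    ∃ ℓ, 1 ≤ ℓ ∧ ℓ < m ∧ (∀ t, t < ℓ → P (x t)) ∧ (∀ t, ℓ ≤ t → t < m → ¬ P (x t)) := by
  classical
  have hex : ∃ t, ¬ P (x t) := ⟨m - 1, hlast⟩
  obtain ⟨ℓ, hℓ1, hℓ2, hℓm⟩ : ∃ ℓ, ¬ P (x ℓ) ∧ (∀ t, t < ℓ → P (x t)) ∧ ℓ ≤ m - 1 :=
    ⟨Nat.find hex, Nat.find_spec hex, fun t ht => not_not.mp (Nat.find_min hex ht),
      Nat.find_min' hex hlast⟩
  have hℓ0 : 1 ≤ ℓ := by
    rcases Nat.eq_zero_or_pos ℓ with h | h
    · rw [h] at hℓ1; exact absurd h0 hℓ1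
    · exact h
  refine ⟨ℓ, hℓ0, by omega, hℓ2, ?_⟩
  intro t ht1 ht2 htb
  have hlt : ℓ < t := by
    rcases Nat.lt_or_ge ℓ t with h | h
    · exact h
    · have : t = ℓ := by omega
      rw [this] at htb
      exact absurd htb hℓ1
  have hlt' : t < m - 1 := by
    rcases Nat.lt_or_ge t (m - 1) with h | h
    · exact h
    · have : t = m - 1 := by omega
      rw [this] at htb
      exact absurd htb hlast
  obtain ⟨s, hs1, hs2, hs3, hs4⟩ : ∃ s, ℓ ≤ s ∧ s < t ∧ ¬ P (x s) ∧ P (x (s + 1)) := by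
    by_contra hcon
    push Not at hcon
    have : ∀ d, ℓ + d ≤ t → ¬ P (x (ℓ + d)) := by
      intro d
      induction d with
      | zero => intro _; exact hℓ1
      | succ d ih =>
        intro hd
        exact hcon (ℓ + d) (by omega) (by omega) (ih (by omega))
    have := this (t - ℓ) (by omega)
    rw [show ℓ + (t - ℓ) = t by omega] at this
    exact this htb
  obtain ⟨u, hu1, hu2, hu3, hu4⟩ : ∃ u, t ≤ u ∧ u < m - 1 ∧ P (x u) ∧ ¬ P (x (u + 1)) := by
    by_contra hcon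
    push Not at hcon
    have : ∀ d, t + d ≤ m - 1 → P (x (t + d)) := by
      intro d
      induction d with
      | zero => intro _; exact htb
      | succ d ih =>
        intro hd
        exact hcon (t + d) (by omega) (by omega) (ih (by omega))
    have := this (m - 1 - t) (by omega)
    rw [show t + (m - 1 - t) = m - 1 by omega] at this
    exact hlast this
  obtain ⟨a, rfl⟩ : ∃ a, ℓ = a + 1 := ⟨ℓ - 1, by omega⟩
  have hAin := hℓ2 a (by omega)
  have cA := hexit a hAin hℓ1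
  have cB := hentry s hs3 hs4
  have cC := hexit u hu3 hu4
  have key : ∀ i1 o1 i2 o2, i1 < m → o1 < m → i2 < m → o2 < m →
      P (x i1) → P (x i2) → ¬ P (x o1) → ¬ P (x o2) → τ (x i1) = τ (x o1) → τ (x i2) = τ (x o2) →
      τ (x i1) = τ (x i2) → i1 = i2 ∧ o1 = o2 := by
    intro i1 o1 i2 o2 h1 h2 h3 h4 h5 h6 h7 h8 h9 h10 h11
    exact ⟨hinj _ _ h1 h3 (hin _ _ h5 h6 h11), hinj _ _ h2 h4 (hout _ _ h7 h8 (by
      rw [← h9, ← h10, h11]))⟩
  have kAB : τ (x a) ≠ τ (x (s + 1)) := fun h => by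
    have := (key a (a + 1) (s + 1) s (by omega) (by omega) (by omega) (by omega) hAin hs4 hℓ1 hs3
      cA.1 cB.1 h).1
    omega
  have kAC : τ (x a) ≠ τ (x u) := fun h => by
    have := (key a (a + 1) u (u + 1) (by omega) (by omega) (by omega) (by omega) hAin hu3 hℓ1 hu4
      cA.1 cC.1 h).1
    omega
  have kAD : τ (x a) ≠ τ (x 0) := fun h => by
    have := key a (a + 1) 0 (m - 1) (by omega) (by omega) (by omega) (by omega) hAin h0 hℓ1 hlast
      cA.1 hwrap.1 h
    omega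
  have kBC : τ (x (s + 1)) ≠ τ (x u) := fun h => by
    have := key (s + 1) s u (u + 1) (by omega) (by omega) (by omega) (by omega) hs4 hu3 hs3 hu4
      cB.1 cC.1 h
    omega
  have kBD : τ (x (s + 1)) ≠ τ (x 0) := fun h => by
    have := key (s + 1) s 0 (m - 1) (by omega) (by omega) (by omega) (by omega) hs4 h0 hs3 hlast
      cB.1 hwrap.1 h
    omega
  have kCD : τ (x u) ≠ τ (x 0) := fun h => by
    have := key u (u + 1) 0 (m - 1) (by omega) (by omega) (by omega) (by omega) hu3 h0 hu4 hlast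
      cC.1 hwrap.1 h
    omega
  exact pigeon cA.2 cB.2 cC.2 hwrap.2 kAB kAC kAD kBC kBD kCD

lemma ext15 {y z : Fin 30} (h1 : y.val / 15 = z.val / 15) (h2 : y.val % 15 = z.val % 15) :
    y = z := by
  apply Fin.ext
  have e1 := Nat.div_add_mod y.val 15
  have e2 := Nat.div_add_mod z.val 15
  rw [h1, h2] at e1
  exact e1.symm.trans e2

lemma ext15' {y z : Fin 30} {b : ℕ} (hb : b < 2) (h1 : y.val / 15 ≠ b) (h1' : z.val / 15 ≠ b)
    (h2 : y.val % 15 = z.val % 15) : y = z := by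
  refine ext15 ?_ h2
  have := y.isLt
  have := z.isLt
  omega

lemma noArc {m : ℕ} (x : ℕ → Fin 30) (b : ℕ)
    (hcard : (Finset.univ.filter (fun x : Fin 30 => x.val / 15 = b)).card = 15)
    (hxinj : ∀ s t, s < m → t < m → x s = x t → s = t)
    (hxsurj : ∀ y : Fin 30, y.val / 15 = b → ∃ t, t < m ∧ x t = y)
    (hadj : ∀ t, G.Adj (x t) (x (t + 1))) (ℓ : ℕ) (hℓ0 : 1 ≤ ℓ) (hℓm : ℓ < m)
    (h1 : ∀ t, t < ℓ → (x t).val / 15 = b) (h2 : ∀ t, ℓ ≤ t → t < m → (x t).val / 15 ≠ b)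
    (h0 : (x 0).val % 15 = 4 ∨ (x 0).val % 15 = 6 ∨ (x 0).val % 15 = 14) : False := by
  have hℓ15 : ℓ = 15 := by
    have himg : (Finset.range ℓ).image x = Finset.univ.filter (fun y : Fin 30 => y.val / 15 = b) := by
      ext y
      simp only [Finset.mem_image, Finset.mem_range, Finset.mem_filter, Finset.mem_univ, true_and]
      constructor
      · rintro ⟨t, ht, rfl⟩
        exact h1 t ht
      · intro hy
        obtain ⟨t, ht, rfl⟩ := hxsurj y hy
        refine ⟨t, ?_, rfl⟩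
        by_contra hcon
        push Not at hcon
        exact h2 t hcon ht hy
    rw [← hcard, ← himg, Finset.card_image_of_injOn, Finset.card_range]
    intro s hs t ht h
    simp only [Finset.coe_range, Set.mem_Iio] at hs ht
    exact hxinj s t (hs.trans hℓm) (ht.trans hℓm) h
  subst hℓ15
  have hA := hadj 14
  have cA := adj_cross hA (by
    rw [h1 14 (by norm_num)]
    exact fun h => h2 15 (le_refl _) hℓm h.symm)
  have hdfs := dfs_complete (fun t => (x t).val % 15) (by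
      intro t ht
      apply adj_same (hadj t)
      rw [h1 t (by omega), h1 (t + 1) (by omega)]) (by
      intro s t hst ht h
      have := hxinj s t (by omega) (by omega) (ext15 (by
        rw [h1 s (by omega), h1 t (by omega)]) h)
      omega) (by
      have := cA.2
      simpa using this) 14 0 rfl
  have e1 : L (fun t => (x t).val % 15) (0 + 1) = [(x 0).val % 15] := rfl
  rw [e1, dfs_false _ h0] at hdfs
  exact Bool.false_ne_true hdfs

lemma noCyc {m : ℕ} (c : ZMod m → Fin 30) (hm : 3 ≤ m) (hinj : Function.Injective c)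
    (hadj : ∀ i, G.Adj (c i) (c (i + 1))) (b : ℕ) (hb2 : b < 2)
    (hall : ∀ x : Fin 30, x.val / 15 = b → ∃ i, c i = x) (hb : ∃ x : Fin 30, x.val / 15 = b)
    (hout : ∃ j, (c j).val / 15 ≠ b)
    (hcard : (Finset.univ.filter (fun x : Fin 30 => x.val / 15 = b)).card = 15) : False := by
  have : NeZero m := ⟨by omega⟩
  obtain ⟨e, he1, he2⟩ : ∃ e, (c e).val / 15 ≠ b ∧ (c (e + 1)).val / 15 = b := by
    by_contra hcon
    push Not at hcon
    obtain ⟨j, hj⟩ := hout
    have hs : ∀ t : ℕ, (c (j + t)).val / 15 ≠ b := by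
      intro t
      induction t with
      | zero => simpa using hj
      | succ t ih =>
        have := hcon _ ih
        have e : j + ((t + 1 : ℕ) : ZMod m) = j + t + 1 := by push_cast; ring
        rw [e]; exact this
    obtain ⟨x, hx⟩ := hb
    obtain ⟨i, hi⟩ := hall x hx
    have := hs (i - j).val
    rw [ZMod.natCast_zmod_val, add_sub_cancel, hi] at this
    exact this hx
  obtain ⟨x, hxdef⟩ : ∃ x : ℕ → Fin 30, x = fun t : ℕ => c (e + 1 + (t : ZMod m)) := ⟨_, rfl⟩
  have hx : ∀ t, x t = c (e + 1 + (t : ZMod m)) := fun t => by rw [hxdef]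
  have hxadj : ∀ t, G.Adj (x t) (x (t + 1)) := by
    intro t
    have := hadj (e + 1 + (t : ZMod m))
    have e' : e + 1 + ((t + 1 : ℕ) : ZMod m) = e + 1 + (t : ZMod m) + 1 := by push_cast; ring
    rw [hx, hx, e']
    exact this
  have hxinj : ∀ s t, s < m → t < m → x s = x t → s = t := by
    intro s t hs ht h
    rw [hx, hx] at h
    have h1 : (s : ZMod m) = (t : ZMod m) := add_left_cancel (hinj h)
    have h2 := congrArg ZMod.val h1
    rwa [ZMod.val_natCast_of_lt hs, ZMod.val_natCast_of_lt ht] at h2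
  have hx0 : x 0 = c (e + 1) := by rw [hx]; simp
  have hxm : x (m - 1) = c e := by
    rw [hx]
    congr 1
    rw [Nat.cast_sub (by omega)]
    simp
  have hxsurj : ∀ y : Fin 30, y.val / 15 = b → ∃ t, t < m ∧ x t = y := by
    intro y hy
    obtain ⟨i, hi⟩ := hall y hy
    refine ⟨(i - (e + 1)).val, ZMod.val_lt _, ?_⟩
    rw [hx, ZMod.natCast_zmod_val, add_sub_cancel, hi]
  have hwrap := adj_cross (hadj e).symm (by rw [he2]; exact fun h => he1 h.symm)
  rw [← hx0, ← hxm] at hwrap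
  obtain ⟨ℓ, h1, h2, h3, h4⟩ := arc m hm x (fun y => y.val / 15 = b) (fun y => y.val % 15) hxinj
    (by show (x 0).val / 15 = b; rw [hx0]; exact he2)
    (by show ¬ (x (m - 1)).val / 15 = b; rw [hxm]; exact he1) hwrap
    (fun t h1 h2 => adj_cross (hxadj t) (by
      intro h
      exact h2 (h.symm.trans h1)))
    (fun t h1 h2 => adj_cross (hxadj t).symm (by
      intro h
      exact h1 (h.symm.trans h2)))
    (fun y z h1 h2 h3 => ext15 (h1.trans h2.symm) h3)
    (fun y z h1 h2 h3 => ext15' hb2 h1 h2 h3)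
  exact noArc x b hcard hxinj hxsurj hxadj ℓ h1 h2 h3 h4 hwrap.2

/-- `G` and all its vertex-deleted subgraphs are non-hamiltonian. -/
lemma nonham (X : Set (Fin 30)) (hX : X = Set.univ ∨ ∃ v, X = {v}ᶜ) :
    ¬ ∃ H, IsHamCycleOn G X H := by
  rintro ⟨H, m, c, hm, hinj, hrange, hadj, -⟩
  -- choose a side contained in `X`
  obtain ⟨b, hb2, hbX, hout⟩ : ∃ b, b < 2 ∧ (∀ x : Fin 30, x.val / 15 = b → x ∈ X) ∧
      ∃ x : Fin 30, x.val / 15 ≠ b ∧ x ∈ X := by
    rcases hX with rfl | ⟨v, rfl⟩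
    · exact ⟨0, by norm_num, fun _ _ => Set.mem_univ _, 15, by decide, Set.mem_univ _⟩
    · by_cases hv : v.val < 15
      · refine ⟨1, by norm_num, ?_, ?_⟩
        · intro x hx hxv
          rw [Set.mem_singleton_iff] at hxv
          subst hxv
          omega
        · by_cases h0 : v = 0
          · subst h0
            exact ⟨1, by decide, by decide⟩
          · exact ⟨0, by decide, fun h => h0 (Set.mem_singleton_iff.mp h).symm⟩
      · refine ⟨0, by norm_num, ?_, ?_⟩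
        · intro x hx hxv
          rw [Set.mem_singleton_iff] at hxv
          subst hxv
          omega
        · by_cases h0 : v = 15
          · subst h0
            exact ⟨16, by decide, by decide⟩
          · exact ⟨15, by decide, fun h => h0 (Set.mem_singleton_iff.mp h).symm⟩
  have hcard : ∀ b : Fin 2, (Finset.univ.filter (fun x : Fin 30 => x.val / 15 = b.val)).card = 15 ∧
      ∃ x : Fin 30, x.val / 15 = b.val := by decide
  refine noCyc c hm hinj hadj b hb2 ?_ (hcard ⟨b, hb2⟩).2 ?_ (hcard ⟨b, hb2⟩).1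
  · intro x hx
    have : x ∈ Set.range c := by rw [hrange]; exact hbX x hx
    exact this
  · obtain ⟨x, hx1, hx2⟩ := hout
    rw [← hrange] at hx2
    obtain ⟨j, hj⟩ := hx2
    exact ⟨j, by rw [hj]; exact hx1⟩

/-! ### The fault cost -/

lemma tree0 : IsSpanningTreeOn G Set.univ (pathOn p0 p0_ok.1) :=
  pathOn_tree p0_ok.1 (by decide) (fun x => ⟨fun _ => p0_ok.2.2.1 x, fun _ => Set.mem_univ _⟩)
    (chk_get p0 p0_ok.2.1)

lemma pv_ne (v : Fin 30) : pv v ≠ [] := by
  intro h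
  have := (pv_ok v).2.2.2
  rw [h] at this
  simp at this

lemma treev (v : Fin 30) : IsSpanningTreeOn G {v}ᶜ (pathOn (pv v) (pv_ok v).1) :=
  pathOn_tree (pv_ok v).1 (pv_ne v) (fun x => by
    rw [(pv_ok v).2.2.1 x]
    simp) (chk_get (pv v) (pv_ok v).2.1)

lemma ml_eq (X : Set (Fin 30)) (hX : X = Set.univ ∨ ∃ v, X = {v}ᶜ) (hc : 2 ≤ X.ncard)
    (T : SimpleGraph (Fin 30)) (hT : IsSpanningTreeOn G X T) (hl : leafCount T = 2) :
    ml G X = 2 := by
  unfold ml
  rw [if_neg (nonham X hX)]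
  have hmem : 2 ∈ {k | ∃ T, IsSpanningTreeOn G X T ∧ leafCount T = k} := ⟨T, hT, hl⟩
  apply le_antisymm
  · exact Nat.sInf_le hmem
  · apply le_csInf ⟨2, hmem⟩
    rintro k ⟨T', hT', rfl⟩
    exact two_le_leafCount hT' hc

lemma card_univ2 : 2 ≤ (Set.univ : Set (Fin 30)).ncard := by
  rw [Set.ncard_univ, Nat.card_eq_fintype_card, Fintype.card_fin]
  norm_num

lemma card_compl2 (v : Fin 30) : 2 ≤ ({v}ᶜ : Set (Fin 30)).ncard := by
  rw [Set.ncard_compl, Set.ncard_singleton, Nat.card_eq_fintype_card, Fintype.card_fin]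
  norm_num

lemma ml_univ : ml G Set.univ = 2 :=
  ml_eq _ (Or.inl rfl) card_univ2 _ tree0
    (leafCount_pathOn _ (by rw [p0_ok.2.2.2]; norm_num))

lemma ml_compl (v : Fin 30) : ml G {v}ᶜ = 2 :=
  ml_eq _ (Or.inr ⟨v, rfl⟩) (card_compl2 v) _ (treev v)
    (leafCount_pathOn _ (by rw [(pv_ok v).2.2.2]; norm_num))

lemma isML0 : IsML G Set.univ (pathOn p0 p0_ok.1) :=
  Or.inr ⟨nonham _ (Or.inl rfl), tree0, by
    rw [ml_univ]; exact leafCount_pathOn _ (by rw [p0_ok.2.2.2]; norm_num)⟩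

lemma isMLv (v : Fin 30) : IsML G {v}ᶜ (pathOn (pv v) (pv_ok v).1) :=
  Or.inr ⟨nonham _ (Or.inr ⟨v, rfl⟩), treev v, by
    rw [ml_compl]; exact leafCount_pathOn _ (by rw [(pv_ok v).2.2.2]; norm_num)⟩

lemma deg_path {l : List (Fin 30)} (hl : l.Nodup) (h2 : 2 ≤ l.length) {w : Fin 30} (hw : w ∈ l) :
    ((l.head? = some w ∨ l.getLast? = some w) → deg (pathOn l hl) w = 1) ∧
    (¬ (l.head? = some w ∨ l.getLast? = some w) → deg (pathOn l hl) w = 2) := by
  have hne : l ≠ [] := by rintro rfl; simp at h2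
  have h := pathOn_deg_eq hl h2 hne hw
  rw [List.head?_eq_some_head hne, List.getLast?_eq_some_getLast hne]
  simp only [Option.some.injEq]
  constructor
  · rintro (h' | h')
    · exact h.1 (Or.inl h'.symm)
    · exact h.1 (Or.inr h'.symm)
  · intro h'
    rw [not_or] at h'
    exact h.2 (fun e => h'.1 e.symm) (fun e => h'.2 e.symm)

lemma tau_le (v : Fin 30) :
    tau v (pathOn p0 p0_ok.1) (pathOn (pv v) (pv_ok v).1) ≤ 1 := by
  unfold tau
  have hsub : {w | w ≠ v ∧ deg (pathOn p0 p0_ok.1) w ≠ deg (pathOn (pv v) (pv_ok v).1) w} ⊆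
      {zv v} := by
    rintro w ⟨hwv, hw⟩
    rw [Set.mem_singleton_iff]
    by_contra hz
    apply hw
    have h1 := deg_path p0_ok.1 (by rw [p0_ok.2.2.2]; norm_num) (p0_ok.2.2.1 w)
    have h2 := deg_path (pv_ok v).1 (by rw [(pv_ok v).2.2.2]; norm_num)
      (((pv_ok v).2.2.1 w).mpr hwv)
    have h3 := ends_ok v w hwv hz
    by_cases h : p0.head? = some w ∨ p0.getLast? = some w
    · rw [h1.1 h, h2.1 (h3.mp h)]
    · rw [h1.2 h, h2.2 (fun h' => h (h3.mpr h'))]
  calc _ ≤ ({zv v} : Set (Fin 30)).ncard := Set.ncard_le_ncard hsub (Set.toFinite _)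
    _ = 1 := Set.ncard_singleton _

lemma phiS_le : phiS G (pathOn p0 p0_ok.1) ≤ 1 := by
  unfold phiS
  apply ciSup_le
  intro v
  have hmem : tau v (pathOn p0 p0_ok.1) (pathOn (pv v) (pv_ok v).1) ∈
      {k | ∃ S', IsML G {v}ᶜ S' ∧ tau v (pathOn p0 p0_ok.1) S' = k} := ⟨_, isMLv v, rfl⟩
  exact (Nat.sInf_le hmem).trans (tau_le v)

/-- parity: the degrees cannot all agree after the deletion of a leaf -/
lemma tau_ne_zero {S S' : SimpleGraph (Fin 30)} {s : Fin 30} (hs : deg S s = 1)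
    (hS' : ∀ x y, S'.Adj x y → x ∈ ({s}ᶜ : Set (Fin 30)) ∧ y ∈ ({s}ᶜ : Set (Fin 30))) :
    tau s S S' ≠ 0 := by
  classical
  intro h0
  unfold tau at h0
  rw [Set.ncard_eq_zero (Set.toFinite _)] at h0
  have hdeg : ∀ w, w ≠ s → deg S w = deg S' w := by
    intro w hw
    by_contra hcon
    have : w ∈ {w | w ≠ s ∧ deg S w ≠ deg S' w} := ⟨hw, hcon⟩
    rw [h0] at this
    exact this
  have hs' : deg S' s = 0 := by
    unfold deg
    have : S'.neighborSet s = ∅ := by
      ext y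
      simp only [Set.mem_empty_iff_false, iff_false]
      intro hy
      exact (hS' s y hy).1 rfl
    rw [this, Set.ncard_empty]
  have hd : ∀ (T : SimpleGraph (Fin 30)) (w : Fin 30), deg T w = T.degree w := by
    intro T w
    unfold deg
    rw [← SimpleGraph.card_neighborSet_eq_degree, ← Nat.card_eq_fintype_card,
      Nat.card_coe_set_eq]
  have e1 := S.sum_degrees_eq_twice_card_edges
  have e2 := S'.sum_degrees_eq_twice_card_edges
  have e3 : ∑ w, S.degree w = ∑ w, S'.degree w + 1 := by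
    rw [← Finset.add_sum_erase Finset.univ (fun w => S.degree w) (Finset.mem_univ s),
      ← Finset.add_sum_erase Finset.univ (fun w => S'.degree w) (Finset.mem_univ s)]
    have h1 : S.degree s = 1 := by rw [← hd]; exact hs
    have h2 : S'.degree s = 0 := by rw [← hd]; exact hs'
    have h3 : ∑ x ∈ Finset.univ.erase s, S.degree x = ∑ x ∈ Finset.univ.erase s, S'.degree x := by
      apply Finset.sum_congr rfl
      intro w hw
      rw [← hd, ← hd]
      exact hdeg w (Finset.ne_of_mem_erase hw)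
    rw [h1, h2, h3]
    ring
  omega

lemma one_le_phiS {S : SimpleGraph (Fin 30)} (hS : IsML G Set.univ S) : 1 ≤ phiS G S := by
  rcases hS with ⟨h, -⟩ | ⟨-, hT, hl⟩
  · exact absurd h (nonham _ (Or.inl rfl))
  rw [ml_univ] at hl
  obtain ⟨s, hs⟩ : ∃ s, deg S s = 1 := by
    have : ({w | deg S w = 1} : Set (Fin 30)).Nonempty := by
      rw [Set.nonempty_iff_ne_empty]
      intro h
      unfold leafCount at hl
      rw [h, Set.ncard_empty] at hl
      omega
    exact this
  unfold phiS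
  refine le_trans ?_ (le_ciSup (f := fun v : Fin 30 =>
    sInf {k | ∃ S', IsML G {v}ᶜ S' ∧ tau v S S' = k}) (Set.finite_range _).bddAbove s)
  have hmem : tau s S (pathOn (pv s) (pv_ok s).1) ∈
      {k | ∃ S', IsML G {s}ᶜ S' ∧ tau s S S' = k} := ⟨_, isMLv s, rfl⟩
  apply le_csInf ⟨_, hmem⟩
  rintro k ⟨S', hS', rfl⟩
  rcases hS' with ⟨h, -⟩ | ⟨-, hT', -⟩
  · exact absurd h (nonham _ (Or.inr ⟨s, rfl⟩))
  · have := tau_ne_zero hs hT'.2.1
    omega

lemma phi_eq : phi G = 1 := by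
  unfold phi
  have hmem : phiS G (pathOn p0 p0_ok.1) ∈ {k | ∃ S, IsML G Set.univ S ∧ phiS G S = k} :=
    ⟨_, isML0, rfl⟩
  apply le_antisymm
  · exact (Nat.sInf_le hmem).trans phiS_le
  · apply le_csInf ⟨_, hmem⟩
    rintro k ⟨S, hS, rfl⟩
    exact one_le_phiS hS

lemma connected_of_tree {X : Set (Fin 30)} {T : SimpleGraph (Fin 30)}
    (h : IsSpanningTreeOn G X T) : (G.induce X).Connected :=
  h.2.2.connected.mono (fun _ _ hab => h.1 hab)

/-- There is a finite cubic 2-connected graph with fault cost `1`. -/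
theorem result : ∃ (V : Type) (_ : Fintype V) (G : SimpleGraph V),
    (∀ v, deg G v = 3) ∧ (G.Connected ∧ ∀ v : V, (G.induce {v}ᶜ).Connected) ∧ phi G = 1 := by
  refine ⟨Fin 30, inferInstance, G, ?_, ⟨?_, fun v => connected_of_tree (treev v)⟩, phi_eq⟩
  · intro v
    have : G.degree v = 3 := by
      revert v
      decide +kernel
    rw [← this]
    unfold deg
    rw [← SimpleGraph.card_neighborSet_eq_degree, ← Nat.card_eq_fintype_card,
      Nat.card_coe_set_eq]
  · have h := connected_of_tree tree0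
    have e : G.induce Set.univ ≃g G := SimpleGraph.induceUnivIso G
    exact e.connected_iff.mp h

end Pool.Agent.Results.MP_54aac5_co.CubicFaultCostOne
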